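import Pool.Agent.Y472.C.Defs
import Pool.Agent.W293.HT.CP2
import Pool.Agent.W85.HT.LapInt
import Pool.Agent.W588.HT.Core
import Pool.Agent.W930.HT.Log
import Pool.Agent.W583.HTSeq

/-!
# CB3-EL: elimination of the variables, limits along sequences
-/

set_option autoImplicit false

namespace Pool.Agent.Y232.CB

open Finset Filter Topology Metric
open Pool.Agent.W711.HT Pool.Agent.Y472
open Pool.Agent.Y481 (itI itN itG Sep LN LN_lin itG_sep)
open Pool.Agent.W293.HT (GH isOpen_Rc Rc_mono mem_Rc_of_norm crit_props neg_mem_Rc)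
open scoped Real

variable {L : ℕ} {R c B p₀ C : ℝ} {S : (ℕ → ℂ) → ℂ} {D : ℕ → (ℕ → ℂ) → ℂ} {a : ℕ → ℤ}
  {zz : ℕ → (ℕ → ℂ) → ℕ → ℂ}

/-- the function of one variable -/
noncomputable def GG (S : (ℕ → ℂ) → ℂ) (a : ℕ → ℤ) (zz : ℕ → (ℕ → ℂ) → ℕ → ℂ) (j : ℕ)
    (ψ : ℕ → ℂ) (w : ℂ) : ℂ := Uj S a j (zz j (Function.update ψ j w))

theorem upd_mem {ρ : ℝ} {ψ : ℕ → ℂ} (hψ : ψ ∈ Bx L ρ) (j : ℕ) {w : ℂ} (hw : w ∈ Rc ρ ρ) :
    Function.update ψ j w ∈ Bx L ρ := by
  intro i hi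
  by_cases h : i = j
  · subst h
    rw [Function.update_self]
    exact hw
  · rw [Function.update_of_ne h]
    exact hψ i hi

theorem zz_mem (hP : Pot L R c B p₀ S D) (hK : Crt L R c B p₀ C S D a zz) {j : ℕ} (hj : j ≤ L)
    {ψ : ℕ → ℂ} (hψ : ψ ∈ Bx L (R / 2)) : zz j ψ ∈ Bx L R := by
  intro i hi
  have hR := hP.hR.1
  by_cases h : i < j
  · have h1 := hK.sm j hj ψ hψ i h
    exact mem_Rc_of_norm le_rfl (by linarith [h1.1, h1.2.1])
  · rw [hK.rest j hj ψ hψ i (by omega)]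
    exact Rc_mono (by linarith) (by linarith) (hψ i hi)

theorem zz_zero (hK : Crt L R c B p₀ C S D a zz) {ψ : ℕ → ℂ} (hψ : ψ ∈ Bx L (R / 2)) :
    zz 0 ψ = ψ := by
  funext i
  exact hK.rest 0 (Nat.zero_le _) ψ hψ i (Nat.zero_le _)

theorem GG_der (hK : Crt L R c B p₀ C S D a zz) {j : ℕ} (hj : j < L) {ψ : ℕ → ℂ}
    (hψ : ψ ∈ Bx L (R / 2)) {w : ℂ} (hw : w ∈ Rc (R / 2) (R / 2)) :
    HasDerivAt (GG S a zz j ψ) (D j (zz j (Function.update ψ j w))) w := by
  have h := hK.der j hj.le (Function.update ψ j w) (upd_mem hψ j hw) j le_rfl hj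
  simp only [Function.update_idem, Function.update_self] at h
  exact h

theorem GG_deriv (hK : Crt L R c B p₀ C S D a zz) {j : ℕ} (hj : j < L) {ψ : ℕ → ℂ}
    (hψ : ψ ∈ Bx L (R / 2)) {w : ℂ} (hw : w ∈ Rc (R / 2) (R / 2)) :
    deriv (GG S a zz j ψ) w = D j (zz j (Function.update ψ j w)) := (GG_der hK hj hψ hw).deriv

theorem GG_conc (hK : Crt L R c B p₀ C S D a zz) {j : ℕ} (hj : j < L) {ψ : ℕ → ℂ}
    (hψ : ψ ∈ Bx L (R / 2)) {w : ℂ} (hw : w ∈ Rc (R / 2) (R / 2)) :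
    (deriv (deriv (GG S a zz j ψ)) w).re ≤ -(c / 2) := by
  have h := hK.conc j hj.le (Function.update ψ j w) (upd_mem hψ j hw) j le_rfl hj
  simp only [Function.update_idem, Function.update_self] at h
  have h1 : deriv (GG S a zz j ψ) =ᶠ[𝓝 w] fun w => D j (zz j (Function.update ψ j w)) :=
    Filter.eventuallyEq_of_mem ((isOpen_Rc _ _).mem_nhds hw) fun x hx => GG_deriv hK hj hψ hx
  rw [h1.deriv_eq]
  exact h

theorem GG_diff (hK : Crt L R c B p₀ C S D a zz) {j : ℕ} (hj : j < L) {ψ : ℕ → ℂ}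
    (hψ : ψ ∈ Bx L (R / 2)) : DifferentiableOn ℂ (GG S a zz j ψ) (Rc (R / 2) (R / 2)) :=
  fun _ hw => (GG_der hK hj hψ hw).differentiableAt.differentiableWithinAt

theorem GG_ev (hK : Crt L R c B p₀ C S D a zz) {j : ℕ} (hj : j < L) {ψ : ℕ → ℂ}
    (hψ : ψ ∈ Bx L (R / 2)) {w : ℂ} (hw : w ∈ Rc (R / 2) (R / 2)) :
    GG S a zz j ψ (-w) = GG S a zz j ψ w := by
  have h := hK.ev j hj.le (Function.update ψ j w) (upd_mem hψ j hw) j le_rfl hj
  simp only [Function.update_idem, Function.update_self] at h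
  exact h

theorem GG_GH (hP : Pot L R c B p₀ S D) (hK : Crt L R c B p₀ C S D a zz) {j : ℕ} (hj : j < L)
    {ψ : ℕ → ℂ} (hψ : ψ ∈ Bx L (R / 2)) :
    GH (R / 8) (R / 8) (c / 2) (max 1 (B / (R / 8))) (GG S a zz j ψ) := by
  have hR := hP.hR.1
  have hsub3 : Rc (3 * (R / 8)) (3 * (R / 8)) ⊆ Rc (R / 2) (R / 2) :=
    Rc_mono (by linarith) (by linarith)
  have hsub2 : Rc (2 * (R / 8)) (2 * (R / 8)) ⊆ Rc (R / 2) (R / 2) :=
    Rc_mono (by linarith) (by linarith)
  refine ⟨(GG_diff hK hj hψ).mono hsub3, fun w hw => GG_ev hK hj hψ (hsub3 hw),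
    fun w hw => GG_conc hK hj hψ (hsub2 hw), fun w hw => ?_⟩
  refine le_trans ?_ (le_max_right _ _)
  have hcb : closedBall w (R / 8) ⊆ Rc (R / 2) (R / 2) := by
    intro x hx
    rw [mem_closedBall, dist_eq_norm] at hx
    have h1 := Complex.abs_re_le_norm (x - w)
    have h2 := Complex.abs_im_le_norm (x - w)
    rw [Complex.sub_re] at h1
    rw [Complex.sub_im] at h2
    have h3 : |x.re| ≤ |x.re - w.re| + |w.re| := by
      have := abs_add_le (x.re - w.re) w.re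
      rwa [sub_add_cancel] at this
    have h4 : |x.im| ≤ |x.im - w.im| + |w.im| := by
      have := abs_add_le (x.im - w.im) w.im
      rwa [sub_add_cancel] at this
    have h5 := hw.1
    have h6 := hw.2
    exact ⟨by linarith, by linarith⟩
  have hd : DifferentiableOn ℂ (deriv (GG S a zz j ψ)) (Rc (R / 2) (R / 2)) :=
    (GG_diff hK hj hψ).deriv (isOpen_Rc _ _)
  refine Complex.norm_deriv_le_of_forall_mem_sphere_norm_le (by linarith)
    (hd.diffContOnCl_ball hcb) fun x hx => ?_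
  have hx' := hcb (sphere_subset_closedBall hx)
  rw [GG_deriv hK hj hψ hx']
  exact (hP.bd _ (zz_mem hP hK hj.le (upd_mem hψ j hx'))).2 j hj

theorem Y_MW (hP : Pot L R c B p₀ S D) (hK : Crt L R c B p₀ C S D a zz) {j : ℕ} (hj : j < L)
    {F : ℕ → (ℕ → ℂ) → ℂ} (hF : SeqLim L (R / 2) F fun ψ => Uj S a j (zz j ψ))
    {ψ : ℕ → ℕ → ℂ} {ψ₀ : ℕ → ℂ} (hψ₀ : ψ₀ ∈ Bx L (R / 2))
    (hψ : ∀ i < L, Tendsto (fun N => ψ N i) atTop (𝓝 (ψ₀ i))) :
    MW (fun N w => F N (Function.update (ψ N) j w)) (GG S a zz j ψ₀)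
      (Rc (2 * (R / 8)) (2 * (R / 8))) := by
  have hR := hP.hR.1
  have hp0 := hP.hp
  set K : Set ℂ := (Set.Icc (-(2 * (R / 8))) (2 * (R / 8))) ×ℂ (Set.Icc (-(2 * (R / 8))) (2 * (R / 8)))
    with hKdef
  have hKc : IsCompact K := isCompact_Icc.reProdIm isCompact_Icc
  have hKR : K ⊆ Rc (R / 2) (R / 2) := by
    intro w hw
    rw [hKdef, Complex.mem_reProdIm, Set.mem_Icc, Set.mem_Icc, ← abs_le, ← abs_le] at hw
    exact ⟨by linarith [hw.1], by linarith [hw.2]⟩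
  have hRK : Rc (2 * (R / 8)) (2 * (R / 8)) ⊆ K := by
    intro w hw
    rw [hKdef, Complex.mem_reProdIm, Set.mem_Icc, Set.mem_Icc, ← abs_le, ← abs_le]
    exact ⟨hw.1.le, hw.2.le⟩
  have hcont : ContinuousOn (fun w => (GG S a zz j ψ₀ w).re) K :=
    Complex.continuous_re.comp_continuousOn ((GG_diff hK hj hψ₀).continuousOn.mono hKR)
  have hseq := Pool.Agent.W583.HT.seq ℂ K hKc
    (fun N w => Real.log ‖F N (Function.update (ψ N) j w)‖ / N)
    (fun w => (GG S a zz j ψ₀ w).re) hcont (by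
      intro p p₁ hp₁ _ hlim
      refine hF (fun N => Function.update (ψ N) j (p N)) (Function.update ψ₀ j p₁)
        (upd_mem hψ₀ j (hKR hp₁)) ?_
      intro i hi
      by_cases h : i = j
      · subst h
        simp only [Function.update_self]
        exact hlim
      · simp only [Function.update_of_ne h]
        exact hψ i hi)
  intro ε hε
  have hε' : 0 < min ε (p₀ / 4) := lt_min hε (by linarith)
  filter_upwards [hseq (min ε (p₀ / 4)) hε', eventually_gt_atTop 0] with N hN hN0 w hw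
  have h1 := hN w (hRK hw)
  have hNR : (0 : ℝ) < N := by exact_mod_cast hN0
  have hpos : p₀ / 2 ≤ (GG S a zz j ψ₀ w).re :=
    (hK.close j hj.le _ (upd_mem hψ₀ j (hKR (hRK hw)))).2
  have hne : F N (Function.update (ψ N) j w) ≠ 0 := by
    intro h0
    rw [h0, norm_zero, Real.log_zero, zero_div, zero_sub, abs_neg] at h1
    have h2 := le_abs_self (GG S a zz j ψ₀ w).re
    have h3 := min_le_right ε (p₀ / 4)
    linarith
  refine ⟨hne, ?_⟩
  have h2 : |Real.log ‖F N (Function.update (ψ N) j w)‖ / N - (GG S a zz j ψ₀ w).re| ≤ ε :=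
    h1.trans (min_le_left _ _)
  have h3 : Real.log ‖F N (Function.update (ψ N) j w)‖ - N * (GG S a zz j ψ₀ w).re =
      (Real.log ‖F N (Function.update (ψ N) j w)‖ / N - (GG S a zz j ψ₀ w).re) * N := by
    field_simp
  rw [h3, abs_mul, abs_of_pos hNR]
  exact mul_le_mul_of_nonneg_right h2 hNR.le

theorem el : S_EL := by
  intro L R c B p₀ C hC
  by_cases hcond : 0 < R ∧ R ≤ 1 ∧ 0 < c ∧ 0 < B
  swap
  · exact ⟨1, one_pos, fun S D hP => absurd ⟨hP.hR.1, hP.hR.2, hP.hc, hP.hB⟩ hcond⟩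
  obtain ⟨hR, hR1, hc, hB⟩ := hcond
  set C1 : ℝ := max 1 (B / (R / 8)) with hC1
  have hC11 : 1 ≤ C1 := le_max_left _ _
  have hpi := Real.pi_pos
  set M : ℝ := 8 * π * C1 + (8 * π / (R / 8) + 1) +
    (2 * π * (4 * C1 + 10) / (c / 2 * (R / 8) ^ 2) + 1) + C with hM
  have hM1 : 0 < 8 * π / (R / 8) := by positivity
  have hM2 : 0 < 2 * π * (4 * C1 + 10) / (c / 2 * (R / 8) ^ 2) := by positivity
  have hM3 : 0 < 8 * π * C1 := by positivity
  refine ⟨M, by positivity, fun S D hP a ha zz hK f hf hlim => ?_⟩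
  intro j
  induction j with
  | zero =>
    intro _ ψ ψ₀ hψ₀ hψ
    have h := hlim ψ ψ₀ hψ₀ hψ
    have e : Uj S a 0 (zz 0 ψ₀) = S ψ₀ := by
      rw [zz_zero hK hψ₀]
      simp [Uj]
    simp only [e]
    exact h
  | succ j ih =>
    intro hj ψ ψ₀ hψ₀ hψ
    have hjL : j < L := hj
    have hprev := ih hjL.le
    have hMW := Y_MW hP hK hjL hprev hψ₀ hψ
    have hGH := GG_GH hP hK hjL hψ₀
    rw [← hC1] at hGH
    set z : ℂ := zz (j + 1) ψ₀ j with hz
    have haj := ha j hjL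
    have ha0 : 0 < |(a j : ℝ)| := lt_of_lt_of_le (by positivity) haj
    set A : ℝ := a j / (2 * π) with hA
    have hAabs : |A| = |(a j : ℝ)| / (2 * π) := by
      rw [hA, abs_div, abs_of_pos (by positivity : (0 : ℝ) < 2 * π)]
    have hApos : 0 < |A| := by rw [hAabs]; positivity
    have hsm := hK.sm (j + 1) hj ψ₀ hψ₀ j (Nat.lt_succ_self j)
    have hsq : ((a j : ℝ)) ^ 2 = |(a j : ℝ)| ^ 2 := (sq_abs _).symm
    have hznorm : ‖z‖ ≤ 2 / |A| := by
      have h1 := hsm.2.2.1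
      have h2 : ‖(2 * π / a j : ℂ)‖ = 2 * π / |(a j : ℝ)| := by
        rw [norm_div, norm_mul]
        simp [abs_of_pos hpi]
      have h3 : ‖z‖ ≤ ‖z + 2 * π / a j‖ + ‖(2 * π / a j : ℂ)‖ := by
        have := norm_sub_le (z + 2 * π / a j) (2 * π / a j)
        simpa using this
      have h4 : C / (a j : ℝ) ^ 2 ≤ 2 * π / |(a j : ℝ)| := by
        rw [hsq, div_le_div_iff₀ (by positivity) ha0]
        have h5 : C ≤ |(a j : ℝ)| := by linarith
        have h6 : C * |(a j : ℝ)| ≤ |(a j : ℝ)| * |(a j : ℝ)| :=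
          mul_le_mul_of_nonneg_right h5 ha0.le
        have h7 : |(a j : ℝ)| * |(a j : ℝ)| ≤ 2 * π * |(a j : ℝ)| ^ 2 := by
          have := Real.pi_gt_three
          nlinarith [sq_nonneg |(a j : ℝ)|]
        linarith
      have h5 : 2 / |A| = 2 * π / |(a j : ℝ)| + 2 * π / |(a j : ℝ)| := by
        rw [hAabs]
        field_simp
        ring
      rw [h5]
      linarith
    have hstep := hK.step j hjL ψ₀ hψ₀
    have hzR2 : z ∈ Rc (R / 2) (R / 2) :=
      mem_Rc_of_norm le_rfl (by linarith [hsm.1, hsm.2.1])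
    have hcr : Complex.I * A * z + Complex.I + deriv (GG S a zz j ψ₀) z = 0 := by
      rw [GG_deriv hK hjL hψ₀ hzR2, hstep.2]
      have h1 := hK.crit (j + 1) hj ψ₀ hψ₀ j (Nat.lt_succ_self j)
      rw [← h1, hA]
      push_cast
      ring
    have hA1 : 4 * C1 ≤ |A| := by
      rw [hAabs, le_div_iff₀ (by positivity)]
      linarith
    have hA2 : 4 / |A| < R / 8 := by
      rw [hAabs, div_div_eq_mul_div, div_lt_iff₀ ha0]
      have h1 : 8 * π / (R / 8) < |(a j : ℝ)| := by linarith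
      rw [div_lt_iff₀ (by positivity)] at h1
      linarith
    have hA3 : (4 * C1 + 10) / |A| < c / 2 * (R / 8) ^ 2 := by
      rw [hAabs, div_div_eq_mul_div, div_lt_iff₀ ha0]
      have h1 : 2 * π * (4 * C1 + 10) / (c / 2 * (R / 8) ^ 2) < |(a j : ℝ)| := by linarith
      rw [div_lt_iff₀ (by positivity)] at h1
      linarith
    obtain ⟨hzm, him, -, hSAD, -⟩ := crit_props hGH (by positivity) le_rfl (by linarith)
      (by positivity) hC11 (a j) A hA hA1 hA2 hA3 z hznorm hcr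
    have hAne : A ≠ 0 := abs_pos.1 hApos
    have himpos : 0 < z.im := lt_of_lt_of_le (by positivity) him
    have hlap := Pool.Agent.W85.HT.lapint Pool.Agent.W588.HT.lapc Pool.Agent.W930.HTLog.main
      (fun N w => itN (fun _ => R / 8) a N j (f N) (Function.update (ψ N) j w))
      (GG S a zz j ψ₀) (a j) (R / 8) (R / 8) z (by positivity) (by positivity)
      (by have := Real.pi_gt_three; linarith)
      (by
        filter_upwards [eventually_ge_atTop 1] with N hN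
        exact ((itG_sep (fun i => LN_lin (R / 8) (a i) hN) (hf N) hjL.le).diff
          (ψ N) j).differentiableOn)
      ((GG_diff hK hjL hψ₀).mono (Rc_mono (by linarith) (by linarith))) hMW hzm.1 himpos
      (lt_of_le_of_lt (le_abs_self _) hzm.2) hSAD.sn hSAD.crit hSAD.neg hSAD.line hSAD.side
    have e : (Uj S a (j + 1) (zz (j + 1) ψ₀)).re = (qq (a j) (GG S a zz j ψ₀) z).re := by
      rw [hstep.1]
      rfl
    simp only [e]
    exact hlap

end Pool.Agent.Y232.CB
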