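import Pool.Agent.Y990.CB.Stm2
import Pool.Agent.Y990.CB.Fin

set_option autoImplicit false

open MeasureTheory Set

/-!
Polynomial lower bound for connections inside boxes at the critical point.
-/

namespace Pool.Agent.Y232.CB

open Pool.Agent.W783.PC (pm DepOn Inc)
open Pool.Agent.Y990.CB

noncomputable section

variable {d : ℕ}

/-- The probability of a connection. -/
def con (M : Mod d) (p : unitInterval) (R : Set (Z d)) (x y : Z d) : ℝ :=
  (mu M p).real (Cn M R x y)

lemma con_nonneg (M : Mod d) (p : unitInterval) (R : Set (Z d)) (x y : Z d) :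
    0 ≤ con M p R x y := measureReal_nonneg

lemma con_le_one (M : Mod d) (p : unitInterval) (R : Set (Z d)) (x y : Z d) :
    con M p R x y ≤ 1 := measureReal_le_one

lemma con_self (M : Mod d) (p : unitInterval) (R : Set (Z d)) (x : Z d) :
    con M p R x x = 1 := by
  have : Cn M R x x = univ := by
    ext ω
    simp only [mem_univ, iff_true]
    exact SimpleGraph.Reachable.refl x
  unfold con
  rw [this]
  simp

lemma con_symm (M : Mod d) (p : unitInterval) (R : Set (Z d)) (x y : Z d) :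
    con M p R x y = con M p R y x := by
  have : Cn M R x y = Cn M R y x := by
    ext ω
    exact ⟨fun h => SimpleGraph.Reachable.symm h, fun h => SimpleGraph.Reachable.symm h⟩
  unfold con
  rw [this]

lemma con_mono (M : Mod d) (p : unitInterval) {R R' : Set (Z d)} (h : R ⊆ R') (x y : Z d) :
    con M p R x y ≤ con M p R' x y :=
  measureReal_mono (fun _ hω => reach_mono h hω)

/-- Harris inequality for connections. -/
lemma con_mul (M : Mod d) (p : unitInterval) {R : Set (Z d)} (hR : R.Finite) (x w y : Z d) :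
    con M p R x w * con M p R w y ≤ con M p R x y := by
  have hS := In_fin M hR
  have h1 : DepOn (Cn M R x w) (hS.toFinset : Set M.ι) := by
    rw [hS.coe_toFinset]; exact Cn_dep M R x w
  have h2 : DepOn (Cn M R w y) (hS.toFinset : Set M.ι) := by
    rw [hS.coe_toFinset]; exact Cn_dep M R w y
  have h := Pool.Agent.W333.PC.s_harris M.ι (fun _ => p) hS.toFinset _ _ h1 h2
    (Cn_inc M R x w) (Cn_inc M R w y)
  refine le_trans h (measureReal_mono ?_)
  rintro ω ⟨h3, h4⟩
  exact SimpleGraph.Reachable.trans h3 h4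

/-- Symmetries. -/
lemma con_sym (M : Mod d) (p : unitInterval) (σ : Z d ≃ Z d)
    (hσ : ∀ x y, Nb (σ x) (σ y) ↔ Nb x y) (R : Set (Z d)) (x y : Z d) :
    con M p (σ '' R) (σ x) (σ y) = con M p R x y := by
  unfold con
  rw [← mu_inv_real M p σ (Cn_meas M R x y)]
  congr 1
  ext ω
  exact (reach_sym M σ hσ ω R x y).symm

lemma con_shift (M : Mod d) (p : unitInterval) (w z : Z d) (L : ℕ) (x y : Z d) :
    con M p (Bo (z + w) L) (x + w) (y + w) = con M p (Bo z L) x y := by
  rw [← sf_image_Bo]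
  exact Cn_shift M p w (Bo z L) x y

/-- An edge is open with probability at least `p ^ 2`. -/
lemma con_edge (M : Mod d) (p : unitInterval) {R : Set (Z d)} {x y : Z d} (hx : x ∈ R)
    (hy : y ∈ R) (h : Nb x y) : (p : ℝ) ^ 2 ≤ con M p R x y := by
  have h1 : {ω : M.ι → Bool | ∀ c ∈ M.nd x y, ω c = true} ⊆ Cn M R x y := by
    intro ω hω
    exact SimpleGraph.Adj.reachable ⟨h, hx, hy, hω⟩
  have h2 : (mu M p).real {ω : M.ι → Bool | ∀ c ∈ M.nd x y, ω c = true} =
      (p : ℝ) ^ (M.nd x y).card := by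
    have h3 := Pool.Agent.W45.PC.pm_true (fun _ : M.ι => p) (M.nd x y)
    rw [Measure.real]
    unfold mu
    rw [h3, Finset.prod_const, ENNReal.toReal_pow, ENNReal.toReal_ofReal p.2.1]
  have h4 : (p : ℝ) ^ 2 ≤ (p : ℝ) ^ (M.nd x y).card :=
    pow_le_pow_of_le_one p.2.1 p.2.2 (M.card x y)
  rw [← h2] at h4
  exact h4.trans (measureReal_mono h1)

/-! ### Two kinds of symmetries -/

/-- Exchange of two coordinates. -/
def sw (i j : Fin d) : Z d ≃ Z d where
  toFun x := fun l => x (Equiv.swap i j l)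
  invFun x := fun l => x (Equiv.swap i j l)
  left_inv x := by
    funext l
    simp
  right_inv x := by
    funext l
    simp

/-- Reflection of a coordinate. -/
def rf (i : Fin d) : Z d ≃ Z d where
  toFun x := fun l => if l = i then - x l else x l
  invFun x := fun l => if l = i then - x l else x l
  left_inv x := by
    funext l
    by_cases h : l = i <;> simp [h]
  right_inv x := by
    funext l
    by_cases h : l = i <;> simp [h]

lemma sw_apply (i j : Fin d) (x : Z d) (l : Fin d) : sw i j x l = x (Equiv.swap i j l) := rfl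

lemma rf_apply (i : Fin d) (x : Z d) (l : Fin d) : rf i x l = if l = i then - x l else x l := rfl

lemma rf_abs (i : Fin d) (x y : Z d) (l : Fin d) : |rf i x l - rf i y l| = |x l - y l| := by
  rw [rf_apply, rf_apply]
  by_cases h : l = i
  · rw [if_pos h, if_pos h, ← neg_sub', abs_neg]
  · rw [if_neg h, if_neg h]

lemma sw_Nb (i j : Fin d) (x y : Z d) : Nb (sw i j x) (sw i j y) ↔ Nb x y := by
  unfold Nb
  have h1 : ∑ l, |sw i j x l - sw i j y l| = ∑ l, |x l - y l| :=
    Equiv.sum_comp (Equiv.swap i j) (fun l => |x l - y l|)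
  rw [h1]

lemma rf_Nb (i : Fin d) (x y : Z d) : Nb (rf i x) (rf i y) ↔ Nb x y := by
  unfold Nb
  simp only [rf_abs]

lemma sw_zero (i j : Fin d) : sw i j (0 : Z d) = 0 := rfl

lemma rf_zero (i : Fin d) : rf i (0 : Z d) = 0 := by
  funext l
  rw [rf_apply]
  simp

lemma sw_Bo (i j : Fin d) (L : ℕ) : sw i j '' Bo (0 : Z d) L = Bo 0 L := by
  ext x
  constructor
  · rintro ⟨y, hy, rfl⟩ l
    exact hy (Equiv.swap i j l)
  · intro hx
    refine ⟨sw i j x, fun l => hx (Equiv.swap i j l), ?_⟩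
    funext l
    rw [sw_apply, sw_apply, Equiv.swap_apply_self]

lemma rf_Bo (i : Fin d) (L : ℕ) : rf i '' Bo (0 : Z d) L = Bo 0 L := by
  have key : ∀ y : Z d, y ∈ Bo (0 : Z d) L → rf i y ∈ Bo (0 : Z d) L := by
    intro y hy l
    have h1 := rf_abs i y 0 l
    rw [rf_zero] at h1
    rw [h1]
    exact hy l
  ext x
  constructor
  · rintro ⟨y, hy, rfl⟩
    exact key y hy
  · intro hx
    refine ⟨rf i x, key x hx, ?_⟩
    funext l
    rw [rf_apply, rf_apply]
    by_cases h : l = i <;> simp [h]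

lemma con_sw (M : Mod d) (p : unitInterval) (i j : Fin d) (L : ℕ) (w : Z d) :
    con M p (Bo 0 L) 0 (sw i j w) = con M p (Bo 0 L) 0 w := by
  have h := con_sym M p (sw i j) (sw_Nb i j) (Bo 0 L) 0 w
  rwa [sw_Bo, sw_zero] at h

lemma con_rf (M : Mod d) (p : unitInterval) (i : Fin d) (L : ℕ) (w : Z d) :
    con M p (Bo 0 L) 0 (rf i w) = con M p (Bo 0 L) 0 w := by
  have h := con_sym M p (rf i) (rf_Nb i) (Bo 0 L) 0 w
  rwa [rf_Bo, rf_zero] at h

/-- The lower bound for one scale. -/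
def qq (d n : ℕ) : ℝ := 1 / (2 * d * ((2 * n + 1 : ℕ) : ℝ) ^ d)

lemma qq_pos (hd : 1 ≤ d) (n : ℕ) : 0 < qq d n := by
  unfold qq
  have : (0 : ℝ) < d := by exact_mod_cast hd
  positivity

lemma qq_le_one (hd : 1 ≤ d) (n : ℕ) : qq d n ≤ 1 := by
  unfold qq
  have h1 : (1 : ℝ) ≤ d := by exact_mod_cast hd
  have h2 : (1 : ℝ) ≤ ((2 * n + 1 : ℕ) : ℝ) ^ d := by
    apply one_le_pow₀
    exact_mod_cast (by omega : 1 ≤ 2 * n + 1)
  rw [div_le_one (by positivity)]
  nlinarith

lemma qq_anti (hd : 1 ≤ d) {l n : ℕ} (h : l ≤ n) : qq d n ≤ qq d l := by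
  unfold qq
  have h1 : (0 : ℝ) < d := by exact_mod_cast hd
  apply one_div_le_one_div_of_le (by positivity)
  apply mul_le_mul_of_nonneg_left _ (by positivity)
  apply pow_le_pow_left₀ (by positivity)
  exact_mod_cast (by omega : 2 * l + 1 ≤ 2 * n + 1)

/-- A vertex of the frame with a good connection. -/
lemma frame_vertex (M : Mod d) (p : unitInterval) (hd : 1 ≤ d) (l : ℕ)
    (h : 1 ≤ 2 * d * ∑ x ∈ Ff (0 : Z d) l, (mu M p).real (Cn M (Bo 0 l) 0 x)) :
    ∃ w ∈ Fr (0 : Z d) l, qq d l ≤ con M p (Bo 0 l) 0 w := by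
  by_contra hcon
  push Not at hcon
  have hd0 : (0 : ℝ) < d := by exact_mod_cast hd
  have hq : ∀ x ∈ Ff (0 : Z d) l, (mu M p).real (Cn M (Bo 0 l) 0 x) ≤ qq d l := by
    intro x hx
    have hx' : x ∈ Fr (0 : Z d) l := by
      classical
      unfold Ff at hx
      exact (Finset.mem_filter.1 hx).2
    exact (hcon x hx').le
  have hcard : ((Ff (0 : Z d) l).card : ℝ) ≤ ((2 * l + 1 : ℕ) : ℝ) ^ d := by
    have h1 : (Ff (0 : Z d) l).card ≤ (Bf (0 : Z d) l).card := by
      classical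
      unfold Ff
      exact Finset.card_filter_le _ _
    rw [card_Bf] at h1
    exact_mod_cast h1
  rcases (Ff (0 : Z d) l).eq_empty_or_nonempty with he | hne
  · rw [he] at h
    simp at h
    linarith
  · have hlt : ∑ x ∈ Ff (0 : Z d) l, (mu M p).real (Cn M (Bo 0 l) 0 x) <
        ∑ _x ∈ Ff (0 : Z d) l, qq d l := by
      apply Finset.sum_lt_sum_of_nonempty hne
      intro x hx
      have hx' : x ∈ Fr (0 : Z d) l := by
        classical
        unfold Ff at hx
        exact (Finset.mem_filter.1 hx).2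
      exact hcon x hx'
    rw [Finset.sum_const, nsmul_eq_mul] at hlt
    have h2 : ((Ff (0 : Z d) l).card : ℝ) * qq d l ≤ ((2 * l + 1 : ℕ) : ℝ) ^ d * qq d l :=
      mul_le_mul_of_nonneg_right hcard (qq_pos hd l).le
    have h3 : 2 * d * (((2 * l + 1 : ℕ) : ℝ) ^ d * qq d l) = 1 := by
      unfold qq
      have : (0 : ℝ) < ((2 * l + 1 : ℕ) : ℝ) ^ d := by positivity
      field_simp
    have h4 : 2 * (d : ℝ) * ∑ x ∈ Ff (0 : Z d) l, (mu M p).real (Cn M (Bo 0 l) 0 x) <
        2 * d * (((2 * l + 1 : ℕ) : ℝ) ^ d * qq d l) :=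
      mul_lt_mul_of_pos_left (lt_of_lt_of_le hlt h2) (by positivity)
    rw [h3] at h4
    linarith

/-- The same for a prescribed axis and sign. -/
lemma axis_vertex (M : Mod d) (p : unitInterval) (hd : 1 ≤ d) (l : ℕ)
    (h : 1 ≤ 2 * d * ∑ x ∈ Ff (0 : Z d) l, (mu M p).real (Cn M (Bo 0 l) 0 x)) (i : Fin d)
    (s : ℤ) (hs : s = 1 ∨ s = -1) :
    ∃ w : Z d, w i = s * l ∧ qq d l ≤ con M p (Bo 0 l) 0 w := by
  obtain ⟨w, ⟨_, j, hj⟩, hw⟩ := frame_vertex M p hd l h
  have hj' : |w j| = l := by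
    have : w j - (0 : Z d) j = w j := by simp
    rwa [this] at hj
  have h1 : |sw i j w i| = l := by
    rw [sw_apply, Equiv.swap_apply_left]
    exact hj'
  have h2 : qq d l ≤ con M p (Bo 0 l) 0 (sw i j w) := by rw [con_sw]; exact hw
  obtain ⟨w1, hw1⟩ : ∃ w1, w1 = sw i j w := ⟨_, rfl⟩
  rw [← hw1] at h1 h2
  by_cases h3 : w1 i = s * l
  · exact ⟨w1, h3, h2⟩
  · refine ⟨rf i w1, ?_, by rw [con_rf]; exact h2⟩
    rw [rf_apply, if_pos rfl]
    rcases abs_eq (by positivity : (0 : ℤ) ≤ (l : ℤ)) |>.1 h1 with h4 | h4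
    · rcases hs with rfl | rfl
      · exact absurd (by rw [h4]; ring) h3
      · rw [h4]; ring
    · rcases hs with rfl | rfl
      · rw [h4]; ring
      · exact absurd (by rw [h4]; ring) h3

/-- The vertex `a` moved by `t` along the axis `i`. -/
def mv (a : Z d) (i : Fin d) (t : ℤ) : Z d := fun l => if l = i then a l + t else a l

lemma mv_apply (a : Z d) (i : Fin d) (t : ℤ) (l : Fin d) :
    mv a i t l = if l = i then a l + t else a l := rfl

lemma mv_zero (a : Z d) (i : Fin d) : mv a i 0 = a := by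
  funext l
  rw [mv_apply]
  by_cases h : l = i <;> simp [h]

/-- A jump by an even amount. -/
lemma con_jump (M : Mod d) (p : unitInterval) (hd : 1 ≤ d) (l : ℕ)
    (h : 1 ≤ 2 * d * ∑ x ∈ Ff (0 : Z d) l, (mu M p).real (Cn M (Bo 0 l) 0 x)) (i : Fin d)
    (s : ℤ) (hs : s = 1 ∨ s = -1) (a : Z d) {R : Set (Z d)} (hR : R.Finite)
    (h1 : Bo a l ⊆ R) (h2 : Bo (mv a i (2 * s * l)) l ⊆ R) :
    qq d l ^ 2 ≤ con M p R a (mv a i (2 * s * l)) := by
  obtain ⟨w, hwi, hw⟩ := axis_vertex M p hd l h i s hs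
  obtain ⟨b, hb⟩ : ∃ b, b = mv a i (2 * s * l) := ⟨_, rfl⟩
  rw [← hb] at h2 ⊢
  have e1 : qq d l ≤ con M p R a (w + a) := by
    have h3 := con_shift M p a 0 l 0 w
    rw [zero_add] at h3
    rw [← h3] at hw
    exact hw.trans (con_mono M p h1 _ _)
  have e2 : qq d l ≤ con M p R (w + a) b := by
    have h3 : qq d l ≤ con M p (Bo 0 l) 0 (rf i w) := by rw [con_rf]; exact hw
    have h4 := con_shift M p b 0 l 0 (rf i w)
    rw [zero_add] at h4
    rw [← h4] at h3
    have h5 : rf i w + b = w + a := by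
      funext k
      rw [Pi.add_apply, Pi.add_apply, hb, mv_apply, rf_apply]
      by_cases hk : k = i
      · rw [if_pos hk, if_pos hk, hk, hwi]
        ring
      · rw [if_neg hk, if_neg hk]
    rw [h5, con_symm] at h3
    exact h3.trans (con_mono M p h2 _ _)
  have e3 := con_mul M p hR a (w + a) b
  have h0 := (qq_pos hd l).le
  calc qq d l ^ 2 = qq d l * qq d l := sq _
    _ ≤ con M p R a (w + a) * con M p R (w + a) b := mul_le_mul e1 e2 h0 (con_nonneg _ _ _ _ _)
    _ ≤ _ := e3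

lemma mv_Nb (a : Z d) (i : Fin d) (t s : ℤ) (hs : s = 1 ∨ s = -1) :
    Nb (mv a i t) (mv a i (t + s)) := by
  unfold Nb
  rw [Finset.sum_eq_single i]
  · rw [mv_apply, mv_apply, if_pos rfl, if_pos rfl]
    have : a i + t - (a i + (t + s)) = -s := by ring
    rw [this, abs_neg]
    rcases hs with rfl | rfl <;> simp
  · intro k _ hk
    rw [mv_apply, mv_apply, if_neg hk, if_neg hk]
    simp
  · intro hi
    exact absurd (Finset.mem_univ i) hi

/-- Decomposition of a displacement. -/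
lemma decomp (t : ℤ) (n : ℕ) (ht : |t| ≤ 2 * n) : ∃ (s : ℤ) (l r : ℕ), (s = 1 ∨ s = -1) ∧
    l ≤ n ∧ (r = 0 ∨ r = 1) ∧ t = 2 * s * l + s * r := by
  rcases le_total 0 t with h | h
  · refine ⟨1, t.toNat / 2, t.toNat % 2, Or.inl rfl, ?_, by omega, ?_⟩
    · rw [abs_of_nonneg h] at ht
      omega
    · omega
  · refine ⟨-1, (-t).toNat / 2, (-t).toNat % 2, Or.inr rfl, ?_, by omega, ?_⟩
    · rw [abs_of_nonpos h] at ht
      omega
    · omega

/-- Change of one coordinate. -/
lemma con_step (M : Mod d) (p : unitInterval) (hd : 1 ≤ d)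
    (h : ∀ l : ℕ, 1 ≤ 2 * d * ∑ x ∈ Ff (0 : Z d) l, (mu M p).real (Cn M (Bo 0 l) 0 x))
    (n : ℕ) (z a : Z d) (i : Fin d) (t : ℤ) (ha : a ∈ Bo z n) (hb : mv a i t ∈ Bo z n) :
    qq d n ^ 2 * (p : ℝ) ^ 2 ≤ con M p (Bo z (4 * n)) a (mv a i t) := by
  have hai := ha i
  have hbi := hb i
  rw [mv_apply, if_pos rfl] at hbi
  have ht : |t| ≤ 2 * n := by
    have : t = (a i + t - z i) - (a i - z i) := by ring
    rw [this]
    have := abs_sub (a i + t - z i) (a i - z i)
    linarith
  obtain ⟨s, l, r, hs, hl, hr, htt⟩ := decomp t n ht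
  have hR := Bo_finite z (4 * n)
  have hm : mv a i (2 * s * l) ∈ Bo z n := by
    intro k
    rw [mv_apply]
    by_cases hk : k = i
    · rw [if_pos hk, hk]
      rw [abs_le] at hai hbi ⊢
      rw [htt] at hbi
      rcases hs with rfl | rfl <;> rcases hr with rfl | rfl <;> push_cast at hbi ⊢ <;>
        constructor <;> linarith [hai.1, hai.2, hbi.1, hbi.2]
    · rw [if_neg hk]
      exact ha k
  have hp0 : (0 : ℝ) ≤ (p : ℝ) ^ 2 := by positivity
  have hq0 := (qq_pos hd n).le
  have e1 : qq d n ^ 2 ≤ con M p (Bo z (4 * n)) a (mv a i (2 * s * l)) := by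
    rcases Nat.eq_zero_or_pos l with h0 | h0
    · rw [h0]
      have : (2 * s * ((0 : ℕ) : ℤ)) = 0 := by simp
      rw [this, mv_zero, con_self]
      exact pow_le_one₀ hq0 (qq_le_one hd n)
    · refine le_trans (pow_le_pow_left₀ hq0 (qq_anti hd hl) 2) ?_
      refine con_jump M p hd l (h l) i s hs a hR ?_ ?_
      · exact Bo_sub ha (by omega)
      · exact Bo_sub hm (by omega)
  have e2 : (p : ℝ) ^ 2 ≤ con M p (Bo z (4 * n)) (mv a i (2 * s * l)) (mv a i t) := by
    rcases hr with rfl | rfl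
    · have : t = 2 * s * l := by rw [htt]; simp
      rw [this, con_self]
      exact pow_le_one₀ p.2.1 p.2.2
    · have : t = 2 * s * l + s := by rw [htt]; simp
      refine con_edge M p (Bo_mono z (by omega) hm) (Bo_mono z (by omega) hb) ?_
      rw [this]
      exact mv_Nb a i _ s hs
  refine le_trans ?_ (con_mul M p hR a (mv a i (2 * s * l)) (mv a i t))
  exact mul_le_mul e1 e2 hp0 (con_nonneg _ _ _ _ _)

/-- The vertex with the coordinates of `y` in `T` and of `x` outside. -/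
def mix (x y : Z d) (T : Finset (Fin d)) : Z d := fun l => if l ∈ T then y l else x l

lemma mix_mem {z x y : Z d} {n : ℕ} (hx : x ∈ Bo z n) (hy : y ∈ Bo z n) (T : Finset (Fin d)) :
    mix x y T ∈ Bo z n := by
  intro l
  unfold mix
  by_cases h : l ∈ T
  · simp only [if_pos h]; exact hy l
  · simp only [if_neg h]; exact hx l

lemma con_mix (M : Mod d) (p : unitInterval) (hd : 1 ≤ d)
    (h : ∀ l : ℕ, 1 ≤ 2 * d * ∑ x ∈ Ff (0 : Z d) l, (mu M p).real (Cn M (Bo 0 l) 0 x))
    (n : ℕ) (z x y : Z d) (hx : x ∈ Bo z n) (hy : y ∈ Bo z n) (T : Finset (Fin d)) :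
    (qq d n ^ 2 * (p : ℝ) ^ 2) ^ T.card ≤ con M p (Bo z (4 * n)) x (mix x y T) := by
  classical
  induction T using Finset.induction_on with
  | empty =>
    have : mix x y ∅ = x := by
      funext l
      simp [mix]
    rw [this, con_self]
    simp
  | insert i T hi ih =>
    have e : mix x y (insert i T) = mv (mix x y T) i (y i - x i) := by
      funext l
      rw [mv_apply]
      unfold mix
      by_cases hl : l = i
      · subst hl
        simp [hi]
      · simp [hl]
    have h1 := con_step M p hd h n z (mix x y T) i (y i - x i) (mix_mem hx hy T)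
      (by rw [← e]; exact mix_mem hx hy _)
    rw [← e] at h1
    rw [Finset.card_insert_of_notMem hi, pow_succ]
    refine le_trans ?_ (con_mul M p (Bo_finite z (4 * n)) x (mix x y T) (mix x y (insert i T)))
    have hq0 := (qq_pos hd n).le
    exact mul_le_mul ih h1 (by positivity) (con_nonneg _ _ _ _ _)

/-- **Polynomial lower bound for connections at the critical point.** -/
theorem tau (hphi : S_phi) (hpos : ∀ (d : ℕ) (M : Mod d), Nd M → 0 < pc M) : S_tau := by
  intro d M hd hN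
  have hpc := hpos d M hN
  refine ⟨hpc, ?_⟩
  obtain ⟨p, hp⟩ : ∃ p, p = pc M := ⟨_, rfl⟩
  rw [← hp] at hpc ⊢
  have hp0 : (0 : ℝ) < p := by exact_mod_cast hpc
  have hd0 : (0 : ℝ) < d := by exact_mod_cast hd
  refine ⟨(p : ℝ) ^ (2 * d) / ((2 * d) ^ (2 * d) * 3 ^ (2 * d ^ 2)), by positivity, ?_⟩
  intro n z x y hn hx hy
  have hn0 : (0 : ℝ) < n := by exact_mod_cast hn
  have h : ∀ l : ℕ, 1 ≤ 2 * d * ∑ x ∈ Ff (0 : Z d) l, (mu M p).real (Cn M (Bo 0 l) 0 x) := by
    intro l
    rw [hp]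
    exact hphi d M l hd hN
  have key := con_mix M p hd h n z x y hx hy Finset.univ
  have e : mix x y Finset.univ = y := by
    funext l
    simp [mix]
  rw [e, Finset.card_univ, Fintype.card_fin] at key
  refine le_trans ?_ key
  have e1 : (qq d n ^ 2 * (p : ℝ) ^ 2) ^ d =
      (p : ℝ) ^ (2 * d) / ((2 * d) ^ (2 * d) * ((2 * n + 1 : ℕ) : ℝ) ^ (2 * d ^ 2)) := by
    unfold qq
    have a1 : ((1 : ℝ) / (2 * d * ((2 * n + 1 : ℕ) : ℝ) ^ d)) ^ 2 * (p : ℝ) ^ 2 =
        (p : ℝ) ^ 2 / (2 * d * ((2 * n + 1 : ℕ) : ℝ) ^ d) ^ 2 := by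
      rw [div_pow, one_pow]
      ring
    rw [a1, div_pow, ← pow_mul, ← pow_mul, mul_pow, ← pow_mul]
    congr 3
    ring
  rw [e1, div_div]
  apply div_le_div_of_nonneg_left (by positivity) (by positivity)
  rw [mul_assoc]
  apply mul_le_mul_of_nonneg_left _ (by positivity)
  rw [← mul_pow]
  apply pow_le_pow_left₀ (by positivity)
  have : (1 : ℝ) ≤ n := by exact_mod_cast hn
  push_cast
  linarith

end

end Pool.Agent.Y232.CB
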